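import Mathlib
import Pool.Agent.Lib_helper10.LogRank.Defs
import Pool.Agent.Lib_helper10.LogRank.Proto
import Pool.Agent.Lib_helper38.XA.Defs
import Pool.Agent.Lib_helper16.XA.Ft

/-!
# Functions of arbitrary gadgets and of a sum in a finite abelian group (MP_e5d384_lc): definitions

`V` is the dual group, the points are the characters `AddChar V ℂ` of `V`. A mixture function is
given by its coefficients `a u χ`: `u` is the set of the Boolean coordinates in the monomial, `χ`
the character.
-/

set_option autoImplicit false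

namespace Pool.Agent.AGG

open Finset Pool.Agent.XA Pool.Agent.Lib_helper10.LogRank

section Mixture

variable {ι : Type} [Fintype ι] [DecidableEq ι] {V : Type} [AddCommGroup V] [Fintype V]
  [DecidableEq V]

/-- the Fourier transform of the function in which the coordinates in `z` are 1, the others 0 -/
def sl (a : Finset ι → V → ℂ) (z : Finset ι) (χ : V) : ℂ := ∑ u ∈ z.powerset, a u χ

/-- the coefficients of a function with the values `1`, `-1` -/
def Mix (a : Finset ι → V → ℂ) : Prop := ∀ z, BF (sl a z)

/-- the coordinate `i` is set to 0 -/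
def set0 (i : ι) (a : Finset ι → V → ℂ) : Finset ι → V → ℂ :=
  fun v χ => if i ∈ v then 0 else a v χ

/-- the coordinate `i` is set to 1 -/
def set1 (i : ι) (a : Finset ι → V → ℂ) : Finset ι → V → ℂ :=
  fun v χ => if i ∈ v then 0 else a v χ + a (insert i v) χ

/-- the restriction to a coset -/
noncomputable def mpush {W : Type} [AddCommGroup W] [DecidableEq W] (π : V →+ W)
    (a : Finset ι → V → ℂ) (ξ : AddChar V ℂ) : Finset ι → W → ℂ := fun v => push π (a v) ξ

open Classical in
/-- the number of monomials -/
noncomputable def nnz (a : Finset ι → V → ℂ) : ℕ :=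
  (univ.filter fun p : Finset ι × V => a p.1 p.2 ≠ 0).card

open Classical in
/-- the weight of the nonconstant monomials with a set of coordinates satisfying `P`; the
coordinates in `N` count -/
noncomputable def wt (N : Finset ι) (a : Finset ι → V → ℂ) (P : Finset ι → Prop) : ℕ :=
  ∑ p ∈ univ.filter (fun p : Finset ι × V => a p.1 p.2 ≠ 0 ∧ p.1.Nonempty ∧ P p.1),
    2 ^ (p.1 ∩ N).card

open Classical in
/-- the coordinates which occur -/
noncomputable def act (a : Finset ι → V → ℂ) : Finset ι :=
  univ.filter fun i => ∃ v χ, i ∈ v ∧ a v χ ≠ 0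

open Classical in
/-- the characters which occur -/
noncomputable def chs (a : Finset ι → V → ℂ) : Finset V := univ.filter fun χ => ∃ u, a u χ ≠ 0

/-- the characters which occur and their differences -/
noncomputable def Nb (a : Finset ι → V → ℂ) : Finset V :=
  chs a ∪ (chs a ×ˢ chs a).image fun x => x.1 - x.2

/-- the invariant of the protocol -/
structure St (r : ℕ) (a : Finset ι → V → ℂ) : Prop where
  mix : Mix a
  nz : nnz a ≤ r
  ord : ∀ u χ, a u χ ≠ 0 → addOrderOf χ ≤ r ^ 3

end Mixture

section Cosets

variable {ι : Type} [Fintype ι] [DecidableEq ι] {V : Type} [AddCommGroup V] [Fintype V]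
  [DecidableEq V]

open Classical in
/-- the points with the same values of the characters in `T` as the point `ξ` -/
noncomputable def Cos (T : Finset V) (ξ : AddChar V ℂ) : Finset (AddChar V ℂ) :=
  univ.filter fun ζ => ∀ t ∈ T, ζ t = ξ t

open Classical in
/-- the index; 0 if the two sets are disjoint -/
noncomputable def om (W₁ W₂ : Finset (AddChar V ℂ)) : ℝ := (W₁.card : ℝ) / ((W₁ ∩ W₂).card : ℝ)

/-- the total weight of the certificates `c` for which `c.1` avoids `H` -/
noncomputable def Om (C : Finset (Finset ι × Finset (AddChar V ℂ))) (H : Finset ι)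
    (W : Finset (AddChar V ℂ)) : ℝ :=
  ∑ c ∈ C.filter (fun c => Disjoint c.1 H), om W c.2

/-- a certificate: a set of coordinates and a coset on which `sl a c.1` and `sl a ∅` differ -/
structure IsCert (a : Finset ι → V → ℂ) (d : ℕ) (c : Finset ι × Finset (AddChar V ℂ)) : Prop where
  ne : a c.1 ≠ 0
  nonempty : c.1.Nonempty
  cos : ∃ T ⊆ Nb a, T.card ≤ d ∧ ∃ ξ, c.2 = Cos T ξ
  sens : ∀ ζ ∈ c.2, ev (sl a c.1) ζ ≠ ev (sl a ∅) ζ

/-- at most `h` coordinates hit all the nonconstant monomials which are alive on the coset -/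
def Hit (a : Finset ι → V → ℂ) (h : ℕ) (T : Finset V) (ξ : AddChar V ℂ) : Prop :=
  ∃ H : Finset ι, H.card ≤ h ∧ ∀ v : Finset ι, v.Nonempty → (∃ ζ ∈ Cos T ξ, ev (a v) ζ ≠ 0) →
    ∃ i ∈ H, i ∈ v

/-- `P` can be reached from the coset of `ξ` with at most `k` rounds of at most `d` queries of
characters in `S` -/
def Reach (S : Finset V) (d : ℕ) (P : Finset V → AddChar V ℂ → Prop) :
    ℕ → Finset V → AddChar V ℂ → Prop
  | 0, T, ξ => P T ξ
  | k + 1, T, ξ => P T ξ ∨ ∃ T' ⊆ S, T'.card ≤ d ∧ ∀ ζ ∈ Cos T ξ, Reach S d P k (T ∪ T') ζ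

end Cosets

section Dependence

variable {ι : Type} [DecidableEq ι]

open Classical in
/-- the indices on which the function `[u ⊆ ⋃ j ∈ J, U j]` of `J` depends -/
noncomputable def Dep {q : ℕ} (u : Finset ι) (U : Fin q → Finset ι) : Finset (Fin q) :=
  univ.filter fun j => ∃ J : Finset (Fin q), ¬ u ⊆ J.biUnion U ∧ u ⊆ (insert j J).biUnion U

open Classical in
/-- some element of the set, if it is not empty -/
noncomputable def pk (s : Finset ι) : Option ι := if h : s.Nonempty then some h.choose else none

end Dependence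

section Game

variable {ι : Type} [Fintype ι] [DecidableEq ι] {V : Type} [AddCommGroup V] [Fintype V]
  [DecidableEq V] {X Y : Type}

/-- on `R` the function `F` is the mixture function `a` at the points `z x y`, `ξ x * η y` -/
def Val (R : X → Y → Prop) (F : X → Y → Bool) (z : X → Y → Finset ι) (a : Finset ι → V → ℂ)
    (ξ : X → AddChar V ℂ) (η : Y → AddChar V ℂ) : Prop :=
  ∀ x y, R x y → F x y = decide (ev (sl a (z x y)) (ξ x * η y) = -1)

/-- the coordinates in `N` have protocols of cost at most `κ`, the others are conjunctions of a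
bit of Alice and a bit of Bob -/
structure Gad (N : Finset ι) (κ : ℕ) (z : X → Y → Finset ι) : Prop where
  inN : ∀ i ∈ N, ∃ π : Protocol X Y, π.cost ≤ κ ∧ ∀ x y, π.eval x y = decide (i ∈ z x y)
  notN : ∀ i ∉ N, ∃ (P : X → Bool) (Q : Y → Bool), ∀ x y, i ∈ z x y ↔ P x = true ∧ Q y = true

end Game

section Gadgets

variable {A B : Type}

/-- the function depends on both inputs -/
def DepBoth (g : A → B → Bool) : Prop :=
  (∃ a a' b, g a b ≠ g a' b) ∧ ∃ a b b', g a b ≠ g a b'

/-- an exclusive or of a bit of Alice and a bit of Bob -/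
def XorLike (g : A → B → Bool) : Prop :=
  ∃ (p : A → Bool) (q : B → Bool), ∀ a b, g a b = (p a ^^ q b)

/-- one of the two level sets is a rectangle -/
def AndLike (g : A → B → Bool) : Prop :=
  ∃ (c : Bool) (p : A → Bool) (q : B → Bool), ∀ a b, g a b = (c ^^ (p a && q b))

/-- weight vectors which diagonalise both `1` and `g` -/
def Diag [Fintype A] [Fintype B] (g : A → B → Bool) (l m : Bool → ℝ) : Prop :=
  ∃ (p : Bool → A → ℝ) (q : Bool → B → ℝ), ∀ s t,
    (∑ a, ∑ b, p s a * q t b = if s = t then l s else 0) ∧
    (∑ a, ∑ b, p s a * q t b * (if g a b then 1 else 0) = if s = t then m s else 0)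

end Gadgets

section Coefficients

variable {ι : Type} [Fintype ι] [DecidableEq ι] {V : Type} [AddCommGroup V] [Fintype V]

/-- the coefficients of the function `φ` -/
noncomputable def coef (φ : Finset ι → V → ℝ) (u : Finset ι) (χ : AddChar V ℂ) : ℂ :=
  ∑ w ∈ u.powerset, (-1) ^ (u \ w).card * ft (φ w) χ

end Coefficients

end Pool.Agent.AGG
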